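import Mathlib

set_option autoImplicit false

/-!
Counting integers prime to a modulus: in intervals, and in fibres of the reduction; a lower bound for Euler's function.
-/

namespace Pool.Agent.H24.HV

open Finset

/-- a product of factors `1 - 1 / x` over distinct integers `x ≥ 2` -/
lemma prod_lower (F : Finset ℕ) (hF : ∀ x ∈ F, 2 ≤ x) :
    1 / ((F.card : ℝ) + 1) ≤ ∏ x ∈ F, (1 - 1 / (x : ℝ)) := by
  induction F using Finset.induction_on_max with
  | empty => simp
  | insert m F hm ih =>
    have hmF : m ∉ F := fun h => lt_irrefl _ (hm m h)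
    have h1 := ih (fun x hx => hF x (mem_insert_of_mem hx))
    have hm2 : 2 ≤ m := hF m (mem_insert_self _ _)
    have hcard : F.card + 2 ≤ m := by
      have h2 : F ⊆ Ico 2 m := by
        intro x hx
        rw [mem_Ico]
        exact ⟨hF x (mem_insert_of_mem hx), hm x hx⟩
      have h3 := card_le_card h2
      rw [Nat.card_Ico] at h3
      omega
    rw [prod_insert hmF, card_insert_of_notMem hmF]
    push_cast
    have hc : ((F.card : ℝ) + 2) ≤ m := by exact_mod_cast hcard
    have hc0 : (0 : ℝ) ≤ F.card := Nat.cast_nonneg _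
    have h4 : 1 - 1 / ((F.card : ℝ) + 2) ≤ 1 - 1 / (m : ℝ) := by
      have := one_div_le_one_div_of_le (by positivity : (0 : ℝ) < (F.card : ℝ) + 2) hc
      linarith
    have h5 : 1 / ((F.card : ℝ) + 1 + 1) = (1 - 1 / ((F.card : ℝ) + 2)) * (1 / ((F.card : ℝ) + 1)) := by
      field_simp
      ring
    rw [h5]
    apply mul_le_mul h4 h1 (by positivity)
    have : 1 / (m : ℝ) ≤ 1 := by
      rw [div_le_one (by linarith)]
      linarith
    linarith

lemma tot_lower (n : ℕ) (hn : 1 ≤ n) : (n : ℝ) ≤ Nat.totient n * ((Nat.log 2 n : ℝ) + 1) := by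
  have h1 : (Nat.totient n : ℝ) = n * ∏ p ∈ n.primeFactors, (1 - 1 / (p : ℝ)) := by
    have h := Nat.totient_eq_mul_prod_factors n
    have h' : ((Nat.totient n : ℚ) : ℝ) = ((n * ∏ p ∈ n.primeFactors, (1 - (p : ℚ)⁻¹) : ℚ) : ℝ) := by rw [h]
    push_cast at h'
    rw [h']
    simp
  have h2 := prod_lower n.primeFactors (fun x hx => (Nat.prime_of_mem_primeFactors hx).two_le)
  have h3 : n.primeFactors.card ≤ Nat.log 2 n := by
    apply Nat.le_log_of_pow_le (by norm_num)
    calc 2 ^ n.primeFactors.card = ∏ _p ∈ n.primeFactors, 2 := by rw [prod_const]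
      _ ≤ ∏ p ∈ n.primeFactors, p := prod_le_prod' fun p hp => (Nat.prime_of_mem_primeFactors hp).two_le
      _ ≤ n := Nat.le_of_dvd (by omega) (Nat.prod_primeFactors_dvd n)
  have h3' : (n.primeFactors.card : ℝ) ≤ Nat.log 2 n := by exact_mod_cast h3
  have h4 : 1 / ((Nat.log 2 n : ℝ) + 1) ≤ ∏ p ∈ n.primeFactors, (1 - 1 / (p : ℝ)) := by
    refine le_trans ?_ h2
    apply one_div_le_one_div_of_le (by positivity)
    linarith
  rw [h1]
  have h5 : (0 : ℝ) < (Nat.log 2 n : ℝ) + 1 := by positivity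
  rw [div_le_iff₀ h5] at h4
  have h6 : (0 : ℝ) ≤ n := Nat.cast_nonneg _
  nlinarith

lemma card_div_le (n : ℕ) : (n.divisors.card : ℝ) ≤ 2 * √(n : ℝ) := by
  rcases Nat.eq_zero_or_pos n with h0 | h0
  · subst h0; simp
  have h1 : n.divisors ⊆ (Icc 1 n.sqrt) ∪ ((Icc 1 n.sqrt).image (fun d => n / d)) := by
    intro d hd
    rw [Nat.mem_divisors] at hd
    obtain ⟨⟨e, he⟩, _⟩ := hd
    have hd0 : 0 < d := by
      rcases Nat.eq_zero_or_pos d with h | h
      · subst h; simp at he; omega
      · exact h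
    have he0 : 0 < e := by
      rcases Nat.eq_zero_or_pos e with h | h
      · subst h; simp at he; omega
      · exact h
    rw [mem_union]
    rcases le_or_gt d n.sqrt with h | h
    · left
      rw [mem_Icc]
      exact ⟨hd0, h⟩
    · right
      rw [mem_image]
      refine ⟨e, ?_, ?_⟩
      · rw [mem_Icc]
        refine ⟨he0, ?_⟩
        by_contra hc
        push Not at hc
        have h2 : n < (n.sqrt + 1) * (n.sqrt + 1) := Nat.lt_succ_sqrt n
        have h3 : (n.sqrt + 1) * (n.sqrt + 1) ≤ d * e := Nat.mul_le_mul h hc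
        omega
      · rw [he]
        exact Nat.mul_div_cancel _ he0
  have h2 : n.divisors.card ≤ n.sqrt + n.sqrt := by
    refine (card_le_card h1).trans ((card_union_le _ _).trans ?_)
    refine add_le_add (by simp) (card_image_le.trans (by simp))
  have h3 : (n.sqrt : ℝ) ≤ √(n : ℝ) := Real.nat_sqrt_le_real_sqrt
  have h4 : (n.divisors.card : ℝ) ≤ n.sqrt + n.sqrt := by exact_mod_cast h2
  linarith

lemma mult_count (a Y d : ℕ) (hd : 0 < d) :
    |(((Ico a (a + Y)).filter (fun x => d ∣ x)).card : ℝ) - Y / d| ≤ 1 := by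
  have h := Nat.Ico_filter_modEq_card a (a + Y) hd 0
  simp only [Nat.modEq_zero_iff_dvd, Nat.cast_zero, sub_zero] at h
  have hdQ : (0 : ℚ) < d := by exact_mod_cast hd
  have h1 := Int.le_ceil (((a + Y : ℕ) : ℚ) / d)
  have h2 := Int.ceil_lt_add_one (((a + Y : ℕ) : ℚ) / d)
  have h3 := Int.le_ceil ((a : ℚ) / d)
  have h4 := Int.ceil_lt_add_one ((a : ℚ) / d)
  have h5 : ((a + Y : ℕ) : ℚ) / d = a / d + Y / d := by push_cast; ring
  have h6 : (0 : ℚ) ≤ Y / d := by positivity
  have h7 : ((((Ico a (a + Y)).filter (fun x => d ∣ x)).card : ℤ) : ℚ) =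
      ((max (⌈((a + Y : ℕ) : ℚ) / d⌉ - ⌈(a : ℚ) / d⌉) 0 : ℤ) : ℚ) := by rw [h]
  have h8 : ⌈(a : ℚ) / d⌉ ≤ ⌈((a + Y : ℕ) : ℚ) / d⌉ := Int.ceil_le_ceil (by rw [h5]; linarith)
  rw [max_eq_left (by omega)] at h7
  push_cast at h7
  have h9 : |((((Ico a (a + Y)).filter (fun x => d ∣ x)).card : ℚ)) - Y / d| ≤ 1 := by
    rw [h7, abs_le]
    push_cast at h1 h2 h5
    constructor <;> linarith
  have h10 : ((|((((Ico a (a + Y)).filter (fun x => d ∣ x)).card : ℚ)) - Y / d| : ℚ) : ℝ) ≤ ((1 : ℚ) : ℝ) :=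
    Rat.cast_le.2 h9
  push_cast at h10
  exact h10

lemma sum_moebius (n : ℕ) (_hn : 0 < n) : ∑ d ∈ n.divisors, ArithmeticFunction.moebius d = if n = 1 then 1 else 0 := by
  have h := congrArg (fun f : ArithmeticFunction ℤ => f n) ArithmeticFunction.coe_zeta_mul_moebius
  simp only [ArithmeticFunction.coe_zeta_mul_apply, ArithmeticFunction.one_apply] at h
  exact h

lemma cop_expand (q : ℕ) (hq : 0 < q) (I : Finset ℕ) :
    ((I.filter (fun x => q.Coprime x)).card : ℤ) =
      ∑ d ∈ q.divisors, ArithmeticFunction.moebius d * ((I.filter (fun x => d ∣ x)).card : ℤ) := by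
  have h1 : ∀ x : ℕ, (if q.Coprime x then (1 : ℤ) else 0) =
      ∑ d ∈ q.divisors, ArithmeticFunction.moebius d * (if d ∣ x then 1 else 0) := by
    intro x
    have hg : 0 < q.gcd x := Nat.gcd_pos_of_pos_left _ hq
    have h2 := sum_moebius (q.gcd x) hg
    have h3 : (q.gcd x).divisors = q.divisors.filter (fun d => d ∣ x) := by
      ext d
      rw [Nat.mem_divisors, mem_filter, Nat.mem_divisors, Nat.dvd_gcd_iff]
      constructor
      · rintro ⟨⟨a, b⟩, _⟩
        exact ⟨⟨a, hq.ne'⟩, b⟩
      · rintro ⟨⟨a, _⟩, b⟩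
        exact ⟨⟨a, b⟩, hg.ne'⟩
    rw [h3, sum_filter] at h2
    simp only [mul_ite, mul_one, mul_zero]
    rw [h2]
  rw [card_filter]
  push_cast
  rw [sum_congr rfl fun x _ => h1 x, sum_comm]
  refine sum_congr rfl fun d _ => ?_
  rw [← mul_sum, card_filter]
  push_cast
  rfl

/-- the number of the integers prime to `q` in an interval -/
lemma cop_count (q a Y : ℕ) (hq : 0 < q) :
    (((Ico a (a + Y)).filter (fun x => q.Coprime x)).card : ℝ) ≤ Y * Nat.totient q / q + q.divisors.card := by
  have h1 : (Nat.totient q : ℝ) = ∑ d ∈ q.divisors, (ArithmeticFunction.moebius d : ℝ) * (q / d) := by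
    have h2 := cop_expand q hq (range q)
    rw [← Nat.totient_eq_card_coprime] at h2
    have h3 : ((Nat.totient q : ℤ) : ℝ) =
        ((∑ d ∈ q.divisors, ArithmeticFunction.moebius d * (((range q).filter (fun x => d ∣ x)).card : ℤ) : ℤ) : ℝ) := by
      rw [h2]
    push_cast at h3
    rw [h3]
    refine sum_congr rfl fun d hd => ?_
    rw [Nat.mem_divisors] at hd
    obtain ⟨⟨e, he⟩, _⟩ := hd
    have hd0 : 0 < d := Nat.pos_of_ne_zero (by rintro rfl; simp at he; omega)
    congr 1
    have h4 : (range q).filter (fun x => d ∣ x) = (range e).image (fun i => d * i) := by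
      ext x
      rw [mem_filter, mem_range, mem_image]
      constructor
      · rintro ⟨hx, y, rfl⟩
        refine ⟨y, ?_, rfl⟩
        rw [mem_range]
        rw [he] at hx
        exact lt_of_mul_lt_mul_left hx (Nat.zero_le _)
      · rintro ⟨y, hy, rfl⟩
        rw [mem_range] at hy
        refine ⟨?_, dvd_mul_right _ _⟩
        rw [he]
        exact Nat.mul_lt_mul_of_pos_left hy hd0
    rw [h4, card_image_of_injective _ (fun x y h => Nat.eq_of_mul_eq_mul_left hd0 h), card_range]
    have hdR : (d : ℝ) ≠ 0 := by exact_mod_cast hd0.ne'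
    rw [he]
    push_cast
    field_simp
  have h5 := cop_expand q hq (Ico a (a + Y))
  have h6 : (((Ico a (a + Y)).filter (fun x => q.Coprime x)).card : ℝ) =
      ∑ d ∈ q.divisors, (ArithmeticFunction.moebius d : ℝ) * (((Ico a (a + Y)).filter (fun x => d ∣ x)).card : ℝ) := by
    have h7 : ((((Ico a (a + Y)).filter (fun x => q.Coprime x)).card : ℤ) : ℝ) =
        ((∑ d ∈ q.divisors, ArithmeticFunction.moebius d * (((Ico a (a + Y)).filter (fun x => d ∣ x)).card : ℤ) : ℤ) : ℝ) := by
      rw [h5]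
    push_cast at h7
    exact h7
  have hqR : (0 : ℝ) < q := by exact_mod_cast hq
  have h8 : (Y : ℝ) * Nat.totient q / q = ∑ d ∈ q.divisors, (ArithmeticFunction.moebius d : ℝ) * (Y / d) := by
    rw [h1, mul_div_assoc, sum_div, mul_sum]
    refine sum_congr rfl fun d _ => ?_
    field_simp
  have h9 : (((Ico a (a + Y)).filter (fun x => q.Coprime x)).card : ℝ) - Y * Nat.totient q / q ≤ q.divisors.card := by
    rw [h6, h8, ← sum_sub_distrib]
    refine (sum_le_card_nsmul _ _ 1 fun d hd => ?_).trans (by simp)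
    have hd0 : 0 < d := Nat.pos_of_mem_divisors hd
    rw [← mul_sub]
    refine (le_abs_self _).trans ?_
    rw [abs_mul]
    have h10 : |(ArithmeticFunction.moebius d : ℝ)| ≤ 1 := by
      have := ArithmeticFunction.abs_moebius_le_one (n := d)
      exact_mod_cast this
    have h11 := mult_count a Y d hd0
    calc _ ≤ 1 * 1 := mul_le_mul h10 h11 (abs_nonneg _) zero_le_one
      _ = 1 := one_mul 1
  linarith

/-- the fibres of the reduction of the reduced classes modulo `Q` -/
lemma fiber_count (q Q : ℕ) (hQ : 0 < Q) (hd : q ∣ Q) (S : Finset ℕ) (hS : ∀ B ∈ S, B < q ∧ q.Coprime B) :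
    (((range Q).filter (fun A => Q.Coprime A ∧ A % q ∈ S)).card : ℝ) = S.card * (Nat.totient Q / Nat.totient q) := by
  classical
  have hq : 0 < q := Nat.pos_of_dvd_of_pos hd hQ
  have : NeZero Q := ⟨hQ.ne'⟩
  have : NeZero q := ⟨hq.ne'⟩
  let π := ZMod.unitsMap hd
  have hsurj : Function.Surjective π := ZMod.unitsMap_surjective hd
  obtain ⟨c, hc⟩ : ∃ c : ℕ, ∀ y : (ZMod q)ˣ, (univ.filter (fun g => π g = y)).card = c := by
    refine ⟨(univ.filter (fun g => π g = 1)).card, fun y => ?_⟩
    exact MonoidHom.card_fiber_eq_of_mem_range π (hsurj y) (hsurj 1)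
  have htot : Nat.totient Q = Nat.totient q * c := by
    rw [← ZMod.card_units_eq_totient Q, ← ZMod.card_units_eq_totient q]
    rw [← card_univ (α := (ZMod Q)ˣ), card_eq_sum_card_fiberwise (f := π) (t := univ) (fun _ _ => mem_coe.2 (mem_univ _))]
    rw [sum_congr rfl fun y _ => hc y, sum_const, card_univ, smul_eq_mul]
  have hφq : 0 < Nat.totient q := Nat.totient_pos.2 hq
  -- the set as an image of a set of units
  have key : ((range Q).filter (fun A => Q.Coprime A ∧ A % q ∈ S)).card = S.card * c := by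
    have h1 : ((range Q).filter (fun A => Q.Coprime A ∧ A % q ∈ S)).card =
        ((univ (α := (ZMod Q)ˣ)).filter (fun g : (ZMod Q)ˣ => (g : ZMod Q).val % q ∈ S)).card := by
      symm
      refine card_bij (fun (g : (ZMod Q)ˣ) _ => (g : ZMod Q).val) ?_ ?_ ?_
      · intro g hg
        rw [mem_filter] at hg ⊢
        rw [mem_range]
        exact ⟨ZMod.val_lt _, (ZMod.val_coe_unit_coprime g).symm, hg.2⟩
      · intro g _ g' _ h
        exact Units.ext (ZMod.val_injective Q h)
      · intro A hA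
        rw [mem_filter, mem_range] at hA
        refine ⟨ZMod.unitOfCoprime A hA.2.1.symm, ?_, ?_⟩
        · rw [mem_filter]
          refine ⟨mem_univ _, ?_⟩
          rw [ZMod.coe_unitOfCoprime, ZMod.val_natCast, Nat.mod_eq_of_lt hA.1]
          exact hA.2.2
        · rw [ZMod.coe_unitOfCoprime, ZMod.val_natCast, Nat.mod_eq_of_lt hA.1]
    rw [h1]
    have h2 : ∀ g : (ZMod Q)ˣ, ((π g : (ZMod q)ˣ) : ZMod q).val = (g : ZMod Q).val % q := by
      intro g
      rw [ZMod.unitsMap_val]
      rw [ZMod.cast_eq_val, ZMod.val_natCast]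
    have h3 : ∀ g : (ZMod Q)ˣ, ((g : ZMod Q).val % q ∈ S) ↔
        π g ∈ (univ (α := (ZMod q)ˣ)).filter (fun y : (ZMod q)ˣ => (y : ZMod q).val ∈ S) := by
      intro g
      rw [mem_filter, h2]
      simp
    have h4 : ((univ (α := (ZMod Q)ˣ)).filter (fun g : (ZMod Q)ˣ => (g : ZMod Q).val % q ∈ S)) =
        (univ (α := (ZMod Q)ˣ)).filter (fun g => π g ∈ (univ (α := (ZMod q)ˣ)).filter (fun y : (ZMod q)ˣ => (y : ZMod q).val ∈ S)) := by
      ext g
      rw [mem_filter, mem_filter, h3]
    rw [h4, card_eq_sum_card_fiberwise (f := π) (t := (univ (α := (ZMod q)ˣ)).filter (fun y : (ZMod q)ˣ => (y : ZMod q).val ∈ S))]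
    · have h5 : ∀ y ∈ (univ (α := (ZMod q)ˣ)).filter (fun y : (ZMod q)ˣ => (y : ZMod q).val ∈ S),
          (((univ (α := (ZMod Q)ˣ)).filter (fun g => π g ∈ (univ (α := (ZMod q)ˣ)).filter
            (fun y : (ZMod q)ˣ => (y : ZMod q).val ∈ S))).filter (fun g => π g = y)).card = c := by
        intro y hy
        rw [← hc y]
        congr 1
        ext g
        rw [mem_filter] at hy
        simp only [mem_filter, mem_univ, true_and]
        constructor
        · exact fun h => h.2
        · intro h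
          refine ⟨?_, h⟩
          rw [h]
          exact hy.2
      rw [sum_congr rfl h5, sum_const, smul_eq_mul]
      congr 1
      refine card_bij (fun (g : (ZMod q)ˣ) _ => (g : ZMod q).val) ?_ ?_ ?_
      · intro g hg
        rw [mem_filter] at hg
        exact hg.2
      · intro g _ g' _ h
        exact Units.ext (ZMod.val_injective q h)
      · intro B hB
        have hB' := hS B hB
        refine ⟨ZMod.unitOfCoprime B hB'.2.symm, ?_, ?_⟩
        · rw [mem_filter]
          refine ⟨mem_univ _, ?_⟩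
          rw [ZMod.coe_unitOfCoprime, ZMod.val_natCast, Nat.mod_eq_of_lt hB'.1]
          exact hB
        · rw [ZMod.coe_unitOfCoprime, ZMod.val_natCast, Nat.mod_eq_of_lt hB'.1]
    · intro g hg
      rw [mem_coe, mem_filter] at hg
      exact mem_coe.2 hg.2
  rw [key, htot]
  have : (Nat.totient q : ℝ) ≠ 0 := by exact_mod_cast hφq.ne'
  push_cast
  field_simp

end Pool.Agent.H24.HV
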