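import Mathlib

set_option autoImplicit false

/-!
The variance of moved primes in residue classes.
-/

namespace Pool.Agent.H24.HV

open Finset

/-- `ψ_φ(X; Q, A)`: the sum of `log (φ p)` over the pairs of a prime `p` and an integer `k ≥ 1` with `(φ p) ^ k ≤ X` and
`(φ p) ^ k ≡ A` modulo `Q`, for `0 ≤ A < Q`. For `φ p = p` this is the sum of `Λ(n)` over `n ≤ X`, `n ≡ A` modulo `Q`. -/
noncomputable def psi (φ : ℕ → ℕ) (X : ℝ) (Q A : ℕ) : ℝ :=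
  ∑ᶠ z ∈ {z : ℕ × ℕ | z.1.Prime ∧ 1 ≤ z.2 ∧ ((φ z.1 ^ z.2 : ℕ) : ℝ) ≤ X ∧ φ z.1 ^ z.2 % Q = A}, Real.log (φ z.1)

/-- `G_φ(X, Q)`: the sum of `(ψ_φ(X; Q, A) - X / φ(Q))²` over the reduced residue classes `A` modulo `Q`, where the second
`φ` is Euler's function. -/
noncomputable def G (φ : ℕ → ℕ) (X : ℝ) (Q : ℕ) : ℝ :=
  ∑ A ∈ (range Q).filter (fun A => Nat.Coprime A Q), (psi φ X Q A - X / (Nat.totient Q : ℝ)) ^ 2

end Pool.Agent.H24.HV
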