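import Mathlib

set_option autoImplicit false

/-!
Good rational approximations to the square root of 2, with denominators of every size.
-/

namespace Pool.Agent.H24.HV

/-- the pairs `(p, q)` with `(1 + √2) ^ (n + 1) = p + q √2` -/
def pell : ℕ → ℕ × ℕ
  | 0 => (1, 1)
  | n + 1 => ((pell n).1 + 2 * (pell n).2, (pell n).1 + (pell n).2)

lemma pell_inv (n : ℕ) : 1 ≤ (pell n).2 ∧ (pell n).2 ≤ (pell n).1 ∧ (pell n).1 ≤ 2 * (pell n).2 ∧
    (((pell n).1 : ℤ) ^ 2 - 2 * ((pell n).2 : ℤ) ^ 2 = 1 ∨ ((pell n).1 : ℤ) ^ 2 - 2 * ((pell n).2 : ℤ) ^ 2 = -1) := by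
  induction n with
  | zero => simp [pell]
  | succ n ih =>
    obtain ⟨h1, h2, h3, h4⟩ := ih
    simp only [pell]
    refine ⟨by omega, by omega, by omega, ?_⟩
    push_cast
    rcases h4 with h4 | h4
    · right; nlinarith
    · left; nlinarith

lemma pell_approx (y : ℝ) (hy : 1 ≤ y) : ∃ p q : ℕ, 0 < q ∧ y ≤ q ∧ (q : ℝ) ≤ 3 * y ∧ Nat.Coprime p q ∧
    |√2 * q - p| ≤ 1 / (2 * q) := by
  -- the sequence is unbounded
  have hgrow : ∀ n, n + 1 ≤ (pell n).2 := by
    intro n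
    induction n with
    | zero => simp [pell]
    | succ n ih =>
      have := pell_inv n
      simp only [pell]
      omega
  have hex : ∃ n, y ≤ ((pell n).2 : ℝ) := by
    obtain ⟨n, hn⟩ := exists_nat_ge y
    refine ⟨n, hn.trans ?_⟩
    have := hgrow n
    exact_mod_cast (by omega : n ≤ (pell n).2)
  classical
  obtain ⟨h1, h2, h3, h4⟩ := pell_inv (Nat.find hex)
  refine ⟨(pell (Nat.find hex)).1, (pell (Nat.find hex)).2, h1, Nat.find_spec hex, ?_, ?_, ?_⟩
  · rcases Nat.eq_zero_or_pos (Nat.find hex) with h0 | h0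
    · rw [h0]
      simp only [pell, Nat.cast_one]
      linarith
    · obtain ⟨m, hm⟩ : ∃ m, Nat.find hex = m + 1 := ⟨Nat.find hex - 1, by omega⟩
      have h5 := Nat.find_min hex (m := m) (by omega)
      push Not at h5
      have h6 := pell_inv m
      rw [hm]
      simp only [pell]
      push_cast
      have h7 : ((pell m).1 : ℝ) ≤ 2 * (pell m).2 := by exact_mod_cast h6.2.2.1
      linarith
  · -- coprime
    set p := (pell (Nat.find hex)).1
    set q := (pell (Nat.find hex)).2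
    have h5 : IsCoprime (p : ℤ) (q : ℤ) := by
      rcases h4 with h4 | h4
      · exact ⟨p, -2 * q, by linarith⟩
      · exact ⟨-p, 2 * q, by linarith⟩
    exact Nat.isCoprime_iff_coprime.1 h5
  · set p := (pell (Nat.find hex)).1
    set q := (pell (Nat.find hex)).2
    have hq : (1 : ℝ) ≤ q := by exact_mod_cast h1
    have hpq : (q : ℝ) ≤ p := by exact_mod_cast h2
    have hs : √2 * √2 = 2 := Real.mul_self_sqrt (by norm_num)
    have hs1 : 1 ≤ √2 := by
      rw [Real.one_le_sqrt]; norm_num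
    have h5 : (√2 * q - p) * (√2 * q + p) = 2 * (q : ℝ) ^ 2 - (p : ℝ) ^ 2 := by
      nlinarith
    have h6 : |2 * (q : ℝ) ^ 2 - (p : ℝ) ^ 2| = 1 := by
      rcases h4 with h4 | h4
      · have h7 : (p : ℝ) ^ 2 - 2 * (q : ℝ) ^ 2 = 1 := by exact_mod_cast h4
        rw [show 2 * (q : ℝ) ^ 2 - (p : ℝ) ^ 2 = -1 by linarith]
        norm_num
      · have h7 : (p : ℝ) ^ 2 - 2 * (q : ℝ) ^ 2 = -1 := by exact_mod_cast h4
        rw [show 2 * (q : ℝ) ^ 2 - (p : ℝ) ^ 2 = 1 by linarith]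
        norm_num
    have h8 : 2 * (q : ℝ) ≤ √2 * q + p := by nlinarith
    rw [← h5, abs_mul, abs_of_pos (show 0 < √2 * q + p by nlinarith)] at h6
    rw [le_div_iff₀ (by positivity)]
    calc |√2 * (q : ℝ) - p| * (2 * q) ≤ |√2 * (q : ℝ) - p| * (√2 * q + p) :=
          mul_le_mul_of_nonneg_left h8 (abs_nonneg _)
      _ = 1 := h6

end Pool.Agent.H24.HV
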