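import Pool.Agent.H24.HV.Defs
import Pool.Agent.H24.HV.Cop
import Pool.Agent.H24.HV.Pell
import Pool.Agent.H67.BB.Sums

set_option autoImplicit false

/-!
The classes modulo the denominators of good approximations to `√2` which contain elements of a narrow Bohr set.
-/

namespace Pool.Agent.H24.HV

open Finset Filter Topology Pool.Agent.H67.BB

lemma bohr_class {p q v : ℕ} (hq : 0 < q) (happ : |√2 * q - p| ≤ 1 / (2 * q)) {X η : ℝ} (hv : (v : ℝ) ≤ X)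
    (hb : v ∈ bohr (√2) η) :
    (((v * p % q : ℕ) : ℝ) < (η + X / (2 * (q : ℝ) ^ 2)) * q) ∨
      ((1 - X / (2 * (q : ℝ) ^ 2)) * q ≤ ((v * p % q : ℕ) : ℝ)) := by
  have hqR : (0 : ℝ) < q := by exact_mod_cast hq
  have hb' : Int.fract (√2 * v) < η := hb
  have hb0 := Int.fract_nonneg (√2 * (v : ℝ))
  have hC : ((v * p % q : ℕ) : ℝ) < q := by exact_mod_cast Nat.mod_lt _ hq
  have hC0 : (0 : ℝ) ≤ ((v * p % q : ℕ) : ℝ) := Nat.cast_nonneg _
  obtain ⟨K, hK⟩ : ∃ K : ℕ, K = v * p / q := ⟨_, rfl⟩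
  have hdiv : (v : ℝ) * p = q * (K : ℝ) + ((v * p % q : ℕ) : ℝ) := by
    rw [hK]
    exact_mod_cast (Nat.div_add_mod (v * p) q).symm
  -- multiply everything by `q`
  obtain ⟨N, hN⟩ : ∃ N : ℤ, N = ⌊√2 * (v : ℝ)⌋ - (K : ℤ) := ⟨_, rfl⟩
  have hfl : √2 * (v : ℝ) = ⌊√2 * (v : ℝ)⌋ + Int.fract (√2 * (v : ℝ)) := (Int.floor_add_fract _).symm
  have he : |(v : ℝ) * p - q * (√2 * v)| ≤ X / (2 * (q : ℝ) ^ 2) * q := by
    have h1 : (v : ℝ) * p - q * (√2 * v) = -(v * (√2 * q - p)) := by ring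
    rw [h1, abs_neg, abs_mul, abs_of_nonneg (Nat.cast_nonneg v)]
    calc (v : ℝ) * |√2 * q - p| ≤ v * (1 / (2 * q)) := mul_le_mul_of_nonneg_left happ (Nat.cast_nonneg v)
      _ ≤ X * (1 / (2 * q)) := mul_le_mul_of_nonneg_right hv (by positivity)
      _ = X / (2 * (q : ℝ) ^ 2) * q := by field_simp
  rw [abs_le] at he
  have hkey : ((v * p % q : ℕ) : ℝ) = q * N + q * Int.fract (√2 * (v : ℝ)) + ((v : ℝ) * p - q * (√2 * v)) := by
    have h2 : (N : ℝ) = ⌊√2 * (v : ℝ)⌋ - (K : ℝ) := by rw [hN]; push_cast; ring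
    rw [h2, hdiv]
    have h3 : (⌊√2 * (v : ℝ)⌋ : ℝ) = √2 * v - Int.fract (√2 * (v : ℝ)) := by linarith
    rw [h3]
    ring
  have hqf : q * Int.fract (√2 * (v : ℝ)) < q * η := mul_lt_mul_of_pos_left hb' hqR
  have hqf0 : 0 ≤ q * Int.fract (√2 * (v : ℝ)) := by positivity
  rcases lt_trichotomy N 0 with h | h | h
  · left
    have h4 : (N : ℝ) ≤ -1 := by exact_mod_cast (by omega : N ≤ -1)
    have h5 : q * (N : ℝ) ≤ q * (-1) := mul_le_mul_of_nonneg_left h4 hqR.le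
    nlinarith [he.2]
  · left
    rw [h] at hkey
    push_cast at hkey
    nlinarith [he.2]
  · right
    have h4 : (1 : ℝ) ≤ N := by exact_mod_cast (by omega : (1 : ℤ) ≤ N)
    have h5 : q * (1 : ℝ) ≤ q * N := mul_le_mul_of_nonneg_left h4 hqR.le
    nlinarith [he.1]

/-- the reduced classes modulo `q` which contain elements of the Bohr set up to `X` -/
lemma few_classes {p q : ℕ} (hq : 0 < q) (hco : Nat.Coprime p q) (happ : |√2 * q - p| ≤ 1 / (2 * q)) {X η : ℝ}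
    (hX : 0 ≤ X) (hη : 0 ≤ η) (S : Finset ℕ)
    (hS : ∀ B ∈ S, B < q ∧ q.Coprime B ∧ ∃ v : ℕ, (v : ℝ) ≤ X ∧ v ∈ bohr (√2) η ∧ v % q = B) :
    (S.card : ℝ) ≤ (η + X / (q : ℝ) ^ 2) * Nat.totient q + 2 + 2 * q.divisors.card := by
  classical
  have hqR : (0 : ℝ) < q := by exact_mod_cast hq
  obtain ⟨c, hc⟩ : ∃ c : ℝ, c = X / (2 * (q : ℝ) ^ 2) := ⟨_, rfl⟩
  have hc0 : 0 ≤ c := by rw [hc]; positivity
  obtain ⟨Y₁, hY₁⟩ : ∃ Y₁ : ℕ, Y₁ = ⌈(η + c) * q⌉₊ := ⟨_, rfl⟩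
  obtain ⟨Y₂, hY₂⟩ : ∃ Y₂ : ℕ, Y₂ = ⌈c * q⌉₊ := ⟨_, rfl⟩
  have hinj : Set.InjOn (fun B => B * p % q) (S : Set ℕ) := by
    intro B hB B' hB' h
    have h1 : B * p ≡ B' * p [MOD q] := h
    have h2 : B ≡ B' [MOD q] := Nat.ModEq.cancel_right_of_coprime hco.symm h1
    have h3 := (hS B hB).1
    have h4 := (hS B' hB').1
    exact Nat.ModEq.eq_of_lt_of_lt h2 h3 h4
  have hsub : S.image (fun B => B * p % q) ⊆ ((Ico 0 (0 + Y₁)).filter (fun x => q.Coprime x)) ∪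
      ((Ico (q - Y₂) (q - Y₂ + Y₂)).filter (fun x => q.Coprime x)) := by
    intro C hC
    rw [mem_image] at hC
    obtain ⟨B, hB, rfl⟩ := hC
    obtain ⟨h1, h2, v, h3, h4, h5⟩ := hS B hB
    have hcop : q.Coprime (B * p % q) := by
      rw [Nat.Coprime, Nat.gcd_comm, ← Nat.gcd_rec, ← Nat.Coprime]
      exact Nat.Coprime.mul_right h2 hco.symm
    have hmod : v * p % q = B * p % q := by
      rw [← h5, Nat.mod_mul_mod]
    have h6 := bohr_class hq happ h3 h4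
    rw [hmod, ← hc] at h6
    rw [mem_union, mem_filter, mem_filter, mem_Ico, mem_Ico]
    have hlt : B * p % q < q := Nat.mod_lt _ hq
    rcases h6 with h6 | h6
    · left
      refine ⟨⟨Nat.zero_le _, ?_⟩, hcop⟩
      rw [zero_add, hY₁]
      exact_mod_cast lt_of_lt_of_le h6 (Nat.le_ceil _)
    · right
      refine ⟨⟨?_, by omega⟩, hcop⟩
      have h7 : (q : ℝ) ≤ ((B * p % q + Y₂ : ℕ) : ℝ) := by
        push_cast
        have h8 : c * q ≤ Y₂ := by rw [hY₂]; exact Nat.le_ceil _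
        nlinarith
      have h9 : q ≤ B * p % q + Y₂ := by exact_mod_cast h7
      omega
  have h1 : (S.card : ℝ) ≤ (((Ico 0 (0 + Y₁)).filter (fun x => q.Coprime x)).card : ℝ) +
      (((Ico (q - Y₂) (q - Y₂ + Y₂)).filter (fun x => q.Coprime x)).card : ℝ) := by
    rw [← card_image_of_injOn hinj]
    exact_mod_cast (card_le_card hsub).trans (card_union_le _ _)
  have h2 := cop_count q 0 Y₁ hq
  have h3 := cop_count q (q - Y₂) Y₂ hq
  have h4 : (Y₁ : ℝ) ≤ (η + c) * q + 1 := by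
    rw [hY₁]
    exact (Nat.ceil_lt_add_one (by positivity)).le
  have h5 : (Y₂ : ℝ) ≤ c * q + 1 := by
    rw [hY₂]
    exact (Nat.ceil_lt_add_one (by positivity)).le
  have h6 : (Nat.totient q : ℝ) ≤ q := by exact_mod_cast Nat.totient_le q
  have h7 : (0 : ℝ) ≤ Nat.totient q := Nat.cast_nonneg _
  have h8 : (Y₁ : ℝ) * Nat.totient q / q ≤ (η + c) * Nat.totient q + 1 := by
    rw [div_le_iff₀ hqR]
    nlinarith
  have h9 : (Y₂ : ℝ) * Nat.totient q / q ≤ c * Nat.totient q + 1 := by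
    rw [div_le_iff₀ hqR]
    nlinarith
  have h10 : X / (q : ℝ) ^ 2 = 2 * c := by
    rw [hc]
    field_simp
  rw [h10]
  nlinarith

/-- the values `m ^ k ≤ X` with `k ≥ 2`, and the integers below `N₀` -/
noncomputable def V1 (N₀ : ℕ) (X : ℝ) : Finset ℕ :=
  range N₀ ∪ ((Icc 1 ⌊√X⌋₊ ×ˢ Icc 2 (Nat.log 2 ⌊X⌋₊)).image (fun z => z.1 ^ z.2))

lemma V1_card (N₀ : ℕ) (X : ℝ) : ((V1 N₀ X).card : ℝ) ≤ N₀ + √X * Nat.log 2 ⌊X⌋₊ := by
  have h1 : (V1 N₀ X).card ≤ N₀ + ⌊√X⌋₊ * Nat.log 2 ⌊X⌋₊ := by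
    unfold V1
    refine (card_union_le _ _).trans ?_
    rw [card_range]
    refine Nat.add_le_add_left (card_image_le.trans ?_) _
    rw [card_product, Nat.card_Icc, Nat.card_Icc]
    apply Nat.mul_le_mul <;> omega
  have h2 : (⌊√X⌋₊ : ℝ) ≤ √X := Nat.floor_le (Real.sqrt_nonneg X)
  calc ((V1 N₀ X).card : ℝ) ≤ N₀ + ⌊√X⌋₊ * Nat.log 2 ⌊X⌋₊ := by exact_mod_cast h1
    _ ≤ _ := by gcongr

lemma mem_V1_of_pow {N₀ m k : ℕ} {X : ℝ} (hm : 2 ≤ m) (hk : 2 ≤ k) (h : ((m ^ k : ℕ) : ℝ) ≤ X) : m ^ k ∈ V1 N₀ X := by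
  unfold V1
  rw [mem_union, mem_image]
  right
  have hX : 0 ≤ X := le_trans (Nat.cast_nonneg _) h
  have hfl : m ^ k ≤ ⌊X⌋₊ := Nat.le_floor h
  refine ⟨(m, k), ?_, rfl⟩
  rw [mem_product, mem_Icc, mem_Icc]
  refine ⟨⟨by omega, ?_⟩, hk, ?_⟩
  · apply Nat.le_floor
    apply Real.le_sqrt_of_sq_le
    refine le_trans ?_ h
    push_cast
    exact pow_le_pow_right₀ (by exact_mod_cast (by omega : 1 ≤ m)) hk
  · apply Nat.le_log_of_pow_le (by norm_num)
    exact (Nat.pow_le_pow_left hm k).trans hfl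

/-- the lower bound for the variance by the number of the classes which are hit -/
lemma G_lower (φ : ℕ → ℕ) (X : ℝ) (Q : ℕ) (H : Finset ℕ)
    (hH : ∀ A, A < Q → A.Coprime Q → A ∉ H → psi φ X Q A = 0) :
    ((Nat.totient Q : ℝ) - H.card) * (X / Nat.totient Q) ^ 2 ≤ G φ X Q := by
  classical
  unfold G
  have hsub : ((range Q).filter (fun A => Nat.Coprime A Q)) \ H ⊆ (range Q).filter (fun A => Nat.Coprime A Q) :=
    sdiff_subset
  refine le_trans ?_ (sum_le_sum_of_subset_of_nonneg hsub fun _ _ _ => sq_nonneg _)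
  have h1 : ∀ A ∈ ((range Q).filter (fun A => Nat.Coprime A Q)) \ H,
      (psi φ X Q A - X / (Nat.totient Q : ℝ)) ^ 2 = (X / Nat.totient Q) ^ 2 := by
    intro A hA
    rw [Finset.mem_sdiff, mem_filter, mem_range] at hA
    rw [hH A hA.1.1 hA.1.2 hA.2]
    ring
  rw [sum_congr rfl h1, sum_const, nsmul_eq_mul]
  apply mul_le_mul_of_nonneg_right _ (sq_nonneg _)
  have h2 : ((range Q).filter (fun A => Nat.Coprime A Q)).card = Nat.totient Q := by
    rw [Nat.totient_eq_card_coprime]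
    congr 1
    ext A
    rw [mem_filter, mem_filter, Nat.coprime_comm]
  have h3 := le_card_sdiff H ((range Q).filter (fun A => Nat.Coprime A Q))
  rw [h2] at h3
  have h4 : (Nat.totient Q : ℝ) ≤ ((((range Q).filter (fun A => Nat.Coprime A Q)) \ H).card + H.card : ℕ) := by
    exact_mod_cast (by omega)
  push_cast at h4
  linarith

/-- the classes which are hit by moved primes in Bohr sets -/
lemma hits {f : ℕ → ℝ} {φ Y : ℕ → ℕ} (O : Out TT f φ Y) (J : ℕ) {X : ℝ} (hX : 0 ≤ X) {p q : ℕ} (hq : 0 < q)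
    (hco : Nat.Coprime p q) (happ : |√2 * q - p| ≤ 1 / (2 * q)) (h : ℕ) (hh : 1 ≤ h) :
    ((Nat.totient (h * q) : ℝ) - (Y J + √X * Nat.log 2 ⌊X⌋₊ +
      ((1 / ((J : ℝ) + 1) + X / (q : ℝ) ^ 2) * Nat.totient q + 2 + 2 * q.divisors.card) *
        (Nat.totient (h * q) / Nat.totient q))) * (X / Nat.totient (h * q)) ^ 2 ≤ G φ X (h * q) := by
  classical
  obtain ⟨Q, hQ⟩ : ∃ Q, Q = h * q := ⟨_, rfl⟩
  rw [← hQ]
  have hQ0 : 0 < Q := by rw [hQ]; positivity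
  have hdvd : q ∣ Q := by rw [hQ]; exact dvd_mul_left _ _
  obtain ⟨S, hSdef⟩ : ∃ S : Finset ℕ, S = (range q).filter (fun B => q.Coprime B ∧
    ∃ v : ℕ, (v : ℝ) ≤ X ∧ v ∈ bohr (√2) (1 / ((J : ℝ) + 1)) ∧ v % q = B) := ⟨_, rfl⟩
  have hS1 : ∀ B ∈ S, B < q ∧ q.Coprime B ∧ ∃ v : ℕ, (v : ℝ) ≤ X ∧ v ∈ bohr (√2) (1 / ((J : ℝ) + 1)) ∧ v % q = B := by
    intro B hB
    rw [hSdef, mem_filter, mem_range] at hB
    exact ⟨hB.1, hB.2.1, hB.2.2⟩
  have hS2 := few_classes hq hco happ hX (by positivity) S hS1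
  have hS3 := fiber_count q Q hQ0 hdvd S (fun B hB => ⟨(hS1 B hB).1, (hS1 B hB).2.1⟩)
  obtain ⟨H, hH⟩ : ∃ H : Finset ℕ, H = (V1 (Y J) X).image (fun v => v % Q) ∪
    (range Q).filter (fun A => Q.Coprime A ∧ A % q ∈ S) := ⟨_, rfl⟩
  have hHcard : (H.card : ℝ) ≤ Y J + √X * Nat.log 2 ⌊X⌋₊ +
      ((1 / ((J : ℝ) + 1) + X / (q : ℝ) ^ 2) * Nat.totient q + 2 + 2 * q.divisors.card) *
        (Nat.totient Q / Nat.totient q) := by
    have h1 : (H.card : ℝ) ≤ ((V1 (Y J) X).card : ℝ) +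
        (((range Q).filter (fun A => Q.Coprime A ∧ A % q ∈ S)).card : ℝ) := by
      rw [hH]
      have := (card_union_le ((V1 (Y J) X).image (fun v => v % Q))
        ((range Q).filter (fun A => Q.Coprime A ∧ A % q ∈ S)))
      exact_mod_cast this.trans (Nat.add_le_add_right card_image_le _)
    rw [hS3] at h1
    refine h1.trans (add_le_add (V1_card _ _) ?_)
    exact mul_le_mul_of_nonneg_right hS2 (by positivity)
  refine le_trans (mul_le_mul_of_nonneg_right ?_ (sq_nonneg _)) (G_lower φ X Q H ?_)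
  · linarith
  · intro A hAQ hAc hAH
    unfold psi
    have hempty : {z : ℕ × ℕ | z.1.Prime ∧ 1 ≤ z.2 ∧ ((φ z.1 ^ z.2 : ℕ) : ℝ) ≤ X ∧ φ z.1 ^ z.2 % Q = A} = ∅ := by
      rw [Set.eq_empty_iff_forall_notMem]
      rintro ⟨r, k⟩ ⟨h1, h2, h3, h4⟩
      simp only at h1 h2 h3 h4
      apply hAH
      rw [hH, mem_union]
      rcases Nat.lt_or_ge 1 k with hk | hk
      · left
        rw [mem_image]
        exact ⟨φ r ^ k, mem_V1_of_pow (O.move.two r h1) hk h3, h4⟩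
      · have hk1 : k = 1 := by omega
        subst hk1
        rw [pow_one] at h3 h4
        rcases Nat.lt_or_ge (φ r) (Y J) with hc | hc
        · left
          rw [mem_image]
          refine ⟨φ r, ?_, h4⟩
          unfold V1
          rw [mem_union, mem_range]
          exact Or.inl hc
        · right
          rw [mem_filter, mem_range]
          refine ⟨hAQ, hAc.symm, ?_⟩
          rw [hSdef, mem_filter, mem_range]
          have hAq : A % q = φ r % q := by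
            rw [← h4]
            exact Nat.mod_mod_of_dvd _ hdvd
          refine ⟨Nat.mod_lt _ hq, ?_, φ r, h3, O.mem_of_ge ⟨r, h1, rfl⟩ hc, hAq.symm⟩
          have h5 : q.Coprime A := (hAc.symm).coprime_dvd_left hdvd
          rw [Nat.Coprime, Nat.gcd_comm, ← Nat.gcd_rec]
          exact h5
    rw [hempty]
    exact finsum_mem_empty

end Pool.Agent.H24.HV
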