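import Pool.Agent.H24.HV.Hits

set_option autoImplicit false

/-!
Maximal failure of the asymptotic formula of Hooley for primes moved into Bohr sets.
-/

namespace Pool.Agent.H24.HV

open Finset Filter Topology Pool.Agent.H67.BB

lemma log_two_le (ε : ℝ) (hε : 0 < ε) : ∀ᶠ x : ℝ in atTop, ∀ n : ℕ, (n : ℝ) ≤ x → 1 ≤ n → (Nat.log 2 n : ℝ) + 1 ≤ x ^ ε := by
  have h1 : ∀ᶠ x : ℝ in atTop, Real.log x ≤ (1 / 4) * x ^ ε := by
    have := (isLittleO_log_rpow_atTop hε).def (show (0 : ℝ) < 1 / 4 by norm_num)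
    filter_upwards [this, eventually_ge_atTop 1] with x hx h1
    rw [Real.norm_of_nonneg (Real.log_nonneg h1), Real.norm_of_nonneg (by positivity)] at hx
    exact hx
  have h2 : ∀ᶠ x : ℝ in atTop, (2 : ℝ) ≤ x ^ ε := (tendsto_rpow_atTop hε).eventually_ge_atTop 2
  filter_upwards [h1, h2, eventually_ge_atTop 1] with x h1 h2 h3 n hn hn1
  have hn0 : (0 : ℝ) < n := by exact_mod_cast hn1
  have h4 : (Nat.log 2 n : ℝ) ≤ Real.logb 2 n := by
    rw [Real.le_logb_iff_rpow_le (by norm_num) hn0, Real.rpow_natCast]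
    exact_mod_cast Nat.pow_log_le_self 2 (by omega)
  have h5 : Real.logb 2 n ≤ 2 * Real.log n := by
    rw [Real.logb, div_le_iff₀ (Real.log_pos (by norm_num))]
    have := Real.log_two_gt_d9
    have h6 : 0 ≤ Real.log n := Real.log_nonneg (by exact_mod_cast hn1)
    nlinarith
  have h6 : Real.log n ≤ Real.log x := Real.log_le_log hn0 hn
  linarith

theorem maximal {f : ℕ → ℝ} {φ Y : ℕ → ℕ} (O : Out TT f φ Y) (ε : ℝ) (hε : 0 < ε) (hε2 : ε ≤ 1 / 2) :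
    ∃ X₀ : ℝ, ∀ X : ℝ, X₀ ≤ X → ∀ y : ℝ, X ^ (1 / 2 + ε) ≤ y →
      ∃ q : ℕ, 1 ≤ q ∧ y ≤ q ∧ (q : ℝ) ≤ 3 * y ∧ ∀ h : ℕ, 1 ≤ h →
        (1 - ε) * (X ^ 2 / Nat.totient (h * q)) ≤ G φ X (h * q) := by
  obtain ⟨J, hJ⟩ : ∃ J : ℕ, 4 / ε ≤ J := exists_nat_ge _
  have hJ1 : 1 / ((J : ℝ) + 1) ≤ ε / 4 := by
    rw [div_le_div_iff₀ (by positivity) (by norm_num)]
    rw [div_le_iff₀ hε] at hJ
    nlinarith
  -- large `q`
  have e1 : ∀ᶠ x : ℝ in atTop, 2 + 4 * √x ≤ ε / 4 * x ^ (1 - ε / 2) := by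
    have h1 : ∀ᶠ x : ℝ in atTop, √x ≤ (ε / 32) * x ^ (1 - ε / 2) := by
      have h2 : ∀ᶠ x : ℝ in atTop, (32 / ε : ℝ) ≤ x ^ (1 / 2 - ε / 2) :=
        (tendsto_rpow_atTop (by linarith)).eventually_ge_atTop _
      filter_upwards [h2, eventually_gt_atTop 0] with x hx h0
      have h3 : x ^ (1 - ε / 2) = √x * x ^ (1 / 2 - ε / 2) := by
        rw [Real.sqrt_eq_rpow, ← Real.rpow_add h0]
        congr 1
        ring
      rw [h3]
      have h4 : 0 ≤ √x := Real.sqrt_nonneg x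
      calc √x = ε / 32 * (√x * (32 / ε)) := by field_simp
        _ ≤ _ := by gcongr
    filter_upwards [h1, eventually_ge_atTop 1] with x h1 h2
    have h3 : 1 ≤ √x := by rwa [Real.one_le_sqrt]
    linarith
  have e2 := log_two_le (ε / 2) (by positivity)
  obtain ⟨q₀, hq₀⟩ := eventually_atTop.1 (e1.and e2)
  -- large `X`
  have e3 : ∀ᶠ X : ℝ in atTop, (Y J : ℝ) + √X * Nat.log 2 ⌊X⌋₊ ≤ ε / 4 * X ^ (1 / 2 + ε / 2) := by
    have h1 : ∀ᶠ X : ℝ in atTop, (Y J : ℝ) ≤ ε / 8 * X ^ (1 / 2 + ε / 2) := by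
      have := (tendsto_rpow_atTop (show 0 < 1 / 2 + ε / 2 by positivity)).eventually_ge_atTop ((Y J : ℝ) / (ε / 8))
      filter_upwards [this] with X hX
      rw [div_le_iff₀ (by positivity)] at hX
      linarith
    have h2 : ∀ᶠ X : ℝ in atTop, (8 / ε : ℝ) ≤ X ^ (ε / 4) :=
      (tendsto_rpow_atTop (by positivity)).eventually_ge_atTop _
    filter_upwards [h1, h2, log_two_le (ε / 4) (by positivity), eventually_ge_atTop 1] with X h1 h2 h3 h4
    have hX0 : 0 < X := by linarith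
    have h5 : (Nat.log 2 ⌊X⌋₊ : ℝ) ≤ X ^ (ε / 4) := by
      have := h3 ⌊X⌋₊ (Nat.floor_le hX0.le) (Nat.le_floor (by simpa using h4))
      linarith
    have h6 : X ^ (1 / 2 + ε / 2) = √X * X ^ (ε / 4) * X ^ (ε / 4) := by
      rw [Real.sqrt_eq_rpow, ← Real.rpow_add hX0, ← Real.rpow_add hX0]
      congr 1
      ring
    have h7 : √X * Nat.log 2 ⌊X⌋₊ ≤ ε / 8 * X ^ (1 / 2 + ε / 2) := by
      rw [h6]
      rw [div_le_iff₀ hε] at h2
      have h8 : √X * Nat.log 2 ⌊X⌋₊ ≤ √X * X ^ (ε / 4) := by gcongr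
      have h9 : 0 ≤ √X * X ^ (ε / 4) := by positivity
      nlinarith
    linarith
  have e4 : ∀ᶠ X : ℝ in atTop, (4 / ε : ℝ) ≤ X ^ (2 * ε) :=
    (tendsto_rpow_atTop (by positivity)).eventually_ge_atTop _
  have e5 : ∀ᶠ X : ℝ in atTop, q₀ ≤ X ^ (1 / 2 + ε) :=
    (tendsto_rpow_atTop (by positivity)).eventually_ge_atTop _
  obtain ⟨X₀, hX₀⟩ := eventually_atTop.1 (((e3.and e4).and e5).and (eventually_ge_atTop 1))
  refine ⟨X₀, fun X hX y hy => ?_⟩
  obtain ⟨⟨⟨e3, e4⟩, e5⟩, hX1⟩ := hX₀ X hX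
  have hX0 : 0 < X := by linarith
  have hy1 : 1 ≤ y := le_trans (Real.one_le_rpow hX1 (by positivity)) hy
  obtain ⟨p, q, hq, hyq, hqy, hco, happ⟩ := pell_approx y hy1
  have hXq : X ^ (1 / 2 + ε) ≤ q := hy.trans hyq
  obtain ⟨e1, e2⟩ := hq₀ q (e5.trans hXq)
  have hqR : (0 : ℝ) < q := by exact_mod_cast hq
  refine ⟨q, hq, hyq, hqy, fun h hh => ?_⟩
  -- the totient of `q`
  have t1 : (q : ℝ) ^ (1 - ε / 2) ≤ Nat.totient q := by
    have h1 := tot_lower q hq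
    have h2 := e2 q le_rfl hq
    have h3 : (q : ℝ) = q ^ (1 - ε / 2) * q ^ (ε / 2) := by
      rw [← Real.rpow_add hqR]
      norm_num
    have h4 : (q : ℝ) ≤ Nat.totient q * q ^ (ε / 2) :=
      h1.trans (mul_le_mul_of_nonneg_left h2 (Nat.cast_nonneg _))
    rw [h3] at h4
    have h5 : (0 : ℝ) < q ^ (ε / 2) := by positivity
    have h6 : (q : ℝ) ^ (1 - ε / 2) * q ^ (ε / 2) ≤ Nat.totient q * q ^ (ε / 2) := by
      calc (q : ℝ) ^ (1 - ε / 2) * q ^ (ε / 2) = q := h3.symm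
        _ ≤ _ := h1.trans (mul_le_mul_of_nonneg_left h2 (Nat.cast_nonneg _))
    exact le_of_mul_le_mul_right h6 h5
  have t2 : X ^ (1 / 2 + ε / 2) ≤ Nat.totient q := by
    refine le_trans ?_ t1
    calc X ^ (1 / 2 + ε / 2) ≤ X ^ ((1 / 2 + ε) * (1 - ε / 2)) := by
          apply Real.rpow_le_rpow_of_exponent_le hX1
          nlinarith
      _ = (X ^ (1 / 2 + ε)) ^ (1 - ε / 2) := by rw [Real.rpow_mul hX0.le]
      _ ≤ (q : ℝ) ^ (1 - ε / 2) := by
          apply Real.rpow_le_rpow (by positivity) hXq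
          linarith
  have tpos : (0 : ℝ) < Nat.totient q := by exact_mod_cast Nat.totient_pos.2 hq
  have hhq : 0 < h * q := Nat.mul_pos hh hq
  have Tpos : (0 : ℝ) < Nat.totient (h * q) := by exact_mod_cast Nat.totient_pos.2 hhq
  have T1 : (Nat.totient q : ℝ) ≤ Nat.totient (h * q) := by
    exact_mod_cast Nat.le_of_dvd (Nat.totient_pos.2 hhq) (Nat.totient_dvd_of_dvd (dvd_mul_left q h))
  have a1 : (Y J : ℝ) + √X * Nat.log 2 ⌊X⌋₊ ≤ ε / 4 * Nat.totient (h * q) := by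
    refine e3.trans ?_
    apply mul_le_mul_of_nonneg_left (t2.trans T1) (by positivity)
  have a2 : X / (q : ℝ) ^ 2 ≤ ε / 4 := by
    have h1 : X ^ (1 + 2 * ε) ≤ (q : ℝ) ^ 2 := by
      have h2 : X ^ (1 + 2 * ε) = (X ^ (1 / 2 + ε)) ^ 2 := by
        rw [← Real.rpow_natCast, ← Real.rpow_mul hX0.le]
        congr 1
        push_cast
        ring
      rw [h2]
      exact pow_le_pow_left₀ (by positivity) hXq 2
    rw [div_le_iff₀ (by positivity)]
    rw [Real.rpow_add hX0, Real.rpow_one] at h1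
    rw [div_le_iff₀ hε] at e4
    calc X = ε / 4 * (X * (4 / ε)) := by field_simp
      _ ≤ ε / 4 * (X * X ^ (2 * ε)) := by
          have : 4 / ε ≤ X ^ (2 * ε) := by rw [div_le_iff₀ hε]; exact e4
          gcongr
      _ ≤ ε / 4 * (q : ℝ) ^ 2 := by gcongr
  have a3 : (2 : ℝ) + 2 * q.divisors.card ≤ ε / 4 * Nat.totient q := by
    have h1 := card_div_le q
    have h2 : ε / 4 * (q : ℝ) ^ (1 - ε / 2) ≤ ε / 4 * Nat.totient q := mul_le_mul_of_nonneg_left t1 (by positivity)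
    linarith
  have a4 : ((1 / ((J : ℝ) + 1) + X / (q : ℝ) ^ 2) * Nat.totient q + 2 + 2 * q.divisors.card) *
        (Nat.totient (h * q) / Nat.totient q) ≤ (3 * (ε / 4)) * Nat.totient (h * q) := by
    have h1 : (1 / ((J : ℝ) + 1) + X / (q : ℝ) ^ 2) * Nat.totient q + 2 + 2 * q.divisors.card ≤
        (3 * (ε / 4)) * Nat.totient q := by
      have h2 : (1 / ((J : ℝ) + 1) + X / (q : ℝ) ^ 2) * Nat.totient q ≤ (ε / 4 + ε / 4) * Nat.totient q :=
        mul_le_mul_of_nonneg_right (add_le_add hJ1 a2) tpos.le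
      linarith
    calc _ ≤ ((3 * (ε / 4)) * Nat.totient q) * (Nat.totient (h * q) / Nat.totient q) :=
          mul_le_mul_of_nonneg_right h1 (by positivity)
      _ = _ := by field_simp
  refine le_trans ?_ (hits O J hX0.le hq hco happ h hh)
  calc (1 - ε) * (X ^ 2 / Nat.totient (h * q)) = ((Nat.totient (h * q) : ℝ) - ε * Nat.totient (h * q)) *
        (X / Nat.totient (h * q)) ^ 2 := by field_simp
    _ ≤ _ := by
        apply mul_le_mul_of_nonneg_right _ (sq_nonneg _)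
        linarith

theorem sup_infinite {f : ℕ → ℝ} {φ Y : ℕ → ℕ} (O : Out TT f φ Y) (ε : ℝ) (hε : 0 < ε) (hε2 : ε < 1 / 2) :
    ∃ X₀ : ℝ, ∀ X : ℝ, X₀ ≤ X → ∃ Q : ℕ, X ^ (1 / 2 + ε) < Q ∧ (Q : ℝ) < X ∧
      X ^ (1 / 2 - 2 * ε) * (X * Real.log Q) ≤ G φ X Q := by
  obtain ⟨X₀, h⟩ := maximal O ε hε hε2.le
  have e1 : ∀ᶠ X : ℝ in atTop, Real.log X ≤ (1 / 12) * X ^ ε := by
    have := (isLittleO_log_rpow_atTop hε).def (show (0 : ℝ) < 1 / 12 by norm_num)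
    filter_upwards [this, eventually_ge_atTop 1] with x hx h1
    rw [Real.norm_of_nonneg (Real.log_nonneg h1), Real.norm_of_nonneg (by positivity)] at hx
    exact hx
  have e2 : ∀ᶠ X : ℝ in atTop, (7 : ℝ) ≤ X ^ (1 / 2 - ε) :=
    (tendsto_rpow_atTop (by linarith)).eventually_ge_atTop _
  obtain ⟨X₁, hX₁⟩ := eventually_atTop.1 ((e1.and e2).and (eventually_ge_atTop 1))
  refine ⟨max X₀ X₁, fun X hX => ?_⟩
  obtain ⟨⟨e1, e2⟩, hX1⟩ := hX₁ X (le_trans (le_max_right _ _) hX)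
  have hX0 : 0 < X := by linarith
  have hpow : (0 : ℝ) < X ^ (1 / 2 + ε) := by positivity
  obtain ⟨q, hq1, hyq, hqy, hG⟩ := h X (le_trans (le_max_left _ _) hX) (2 * X ^ (1 / 2 + ε)) (by linarith)
  have hqR : (0 : ℝ) < q := by exact_mod_cast hq1
  have hqX : (q : ℝ) < X := by
    have h1 : X = X ^ (1 / 2 + ε) * X ^ (1 / 2 - ε) := by
      rw [← Real.rpow_add hX0]
      norm_num
    calc (q : ℝ) ≤ 3 * (2 * X ^ (1 / 2 + ε)) := hqy
      _ < X ^ (1 / 2 + ε) * 7 := by linarith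
      _ ≤ X ^ (1 / 2 + ε) * X ^ (1 / 2 - ε) := by gcongr
      _ = X := h1.symm
  refine ⟨q, by linarith, hqX, ?_⟩
  have h1 := hG 1 le_rfl
  rw [one_mul] at h1
  refine le_trans ?_ h1
  have h2 : (0 : ℝ) < Nat.totient q := by exact_mod_cast Nat.totient_pos.2 hq1
  have h3 : (Nat.totient q : ℝ) ≤ 6 * X ^ (1 / 2 + ε) := by
    have : (Nat.totient q : ℝ) ≤ q := by exact_mod_cast Nat.totient_le q
    linarith
  have h4 : Real.log q ≤ (1 / 12) * X ^ ε := (Real.log_le_log hqR hqX.le).trans e1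
  calc X ^ (1 / 2 - 2 * ε) * (X * Real.log q) ≤ X ^ (1 / 2 - 2 * ε) * (X * ((1 / 12) * X ^ ε)) := by gcongr
    _ = (1 / 2) * (X ^ 2 / (6 * X ^ (1 / 2 + ε))) := by
        have h5 : X ^ (1 / 2 - 2 * ε) * X ^ ε * X ^ (1 / 2 + ε) = X := by
          rw [← Real.rpow_add hX0, ← Real.rpow_add hX0]
          rw [show 1 / 2 - 2 * ε + ε + (1 / 2 + ε) = 1 by ring, Real.rpow_one]
        have h6 : X ^ 2 / (6 * X ^ (1 / 2 + ε)) = X * X ^ (1 / 2 - 2 * ε) * X ^ ε / 6 := by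
          rw [div_eq_div_iff (by positivity) (by norm_num)]
          calc X ^ 2 * 6 = X * (X ^ (1 / 2 - 2 * ε) * X ^ ε * X ^ (1 / 2 + ε)) * 6 := by rw [h5]; ring
            _ = _ := by ring
        rw [h6]
        ring
    _ ≤ (1 - ε) * (X ^ 2 / Nat.totient q) := by
        apply mul_le_mul (by linarith) _ (by positivity) (by linarith)
        apply div_le_div_of_nonneg_left (by positivity) h2 h3

end Pool.Agent.H24.HV
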