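import Pool.Agent.H24.HV.Defs

set_option autoImplicit false

/-!
For the identity the variance of the moved primes is the variance of the primes.
-/

namespace Pool.Agent.H24.HV

open Finset

lemma lambda_eq (N n : ℕ) (hn : n ∈ Icc 1 N) : ArithmeticFunction.vonMangoldt n =
    ∑ z ∈ (Icc 1 N ×ˢ Icc 1 N).filter (fun z : ℕ × ℕ => z.1.Prime ∧ z.1 ^ z.2 = n), Real.log z.1 := by
  rw [mem_Icc] at hn
  by_cases h : IsPrimePow n
  · obtain ⟨p, k, hp, hk, rfl⟩ := (isPrimePow_nat_iff _).1 h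
    rw [ArithmeticFunction.vonMangoldt_apply_pow hk.ne', ArithmeticFunction.vonMangoldt_apply_prime hp]
    have h1 : (Icc 1 N ×ˢ Icc 1 N).filter (fun z : ℕ × ℕ => z.1.Prime ∧ z.1 ^ z.2 = p ^ k) = {(p, k)} := by
      ext z
      rw [mem_filter, mem_product, mem_Icc, mem_Icc, mem_singleton]
      constructor
      · rintro ⟨⟨⟨_, _⟩, hk1, _⟩, hz, he⟩
        have h2 : z.1 = p := by
          have h3 : z.1 ∣ p ^ k := by rw [← he]; exact dvd_pow_self _ (by omega)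
          exact (Nat.prime_dvd_prime_iff_eq hz hp).1 (hz.dvd_of_dvd_pow h3)
        have h3 : z.2 = k := by
          rw [h2] at he
          exact Nat.pow_right_injective hp.two_le he
        exact Prod.ext h2 h3
      · rintro rfl
        refine ⟨⟨⟨hp.one_le, ?_⟩, hk, ?_⟩, hp, rfl⟩
        · exact (Nat.le_self_pow hk.ne' p).trans hn.2
        · exact ((Nat.lt_pow_self hp.one_lt).le).trans hn.2
    rw [h1, sum_singleton]
  · rw [ArithmeticFunction.vonMangoldt_eq_zero_iff.2 h]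
    symm
    apply sum_eq_zero
    intro z hz
    rw [mem_filter, mem_product, mem_Icc, mem_Icc] at hz
    exact absurd (by rw [← hz.2.2]; exact hz.2.1.isPrimePow.pow (by omega)) h

lemma psi_id (X : ℝ) (Q A : ℕ) :
    psi (fun p => p) X Q A = ∑ n ∈ (Icc 1 ⌊X⌋₊).filter (fun n => n % Q = A), ArithmeticFunction.vonMangoldt n := by
  classical
  obtain ⟨N, hN⟩ : ∃ N, N = ⌊X⌋₊ := ⟨_, rfl⟩
  rw [← hN]
  have h1 : {z : ℕ × ℕ | z.1.Prime ∧ 1 ≤ z.2 ∧ ((z.1 ^ z.2 : ℕ) : ℝ) ≤ X ∧ z.1 ^ z.2 % Q = A} =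
      (((Icc 1 N ×ˢ Icc 1 N).filter (fun z : ℕ × ℕ => z.1.Prime ∧ z.1 ^ z.2 ∈
        (Icc 1 N).filter (fun n => n % Q = A)) : Finset (ℕ × ℕ)) : Set (ℕ × ℕ)) := by
    ext z
    rw [mem_coe, mem_filter, mem_product, mem_Icc, mem_Icc, mem_filter, mem_Icc, Set.mem_ofPred_eq]
    constructor
    · rintro ⟨hp, hk, hX, hA⟩
      have h2 : z.1 ^ z.2 ≤ N := by rw [hN]; exact Nat.le_floor hX
      refine ⟨⟨⟨hp.one_le, ?_⟩, hk, ?_⟩, hp, ⟨Nat.one_le_pow _ _ hp.pos, h2⟩, hA⟩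
      · exact (Nat.le_self_pow (by omega) z.1).trans h2
      · exact ((Nat.lt_pow_self hp.one_lt).le).trans h2
    · rintro ⟨⟨⟨_, _⟩, hk, _⟩, hp, ⟨h3, h4⟩, hA⟩
      refine ⟨hp, hk, ?_, hA⟩
      have hX : 0 ≤ X := by
        by_contra hc
        push Not at hc
        rw [hN, Nat.floor_of_nonpos hc.le] at h4
        omega
      rw [hN] at h4
      exact (Nat.le_floor_iff hX).1 h4
  unfold psi
  rw [h1, finsum_mem_coe_finset]
  rw [sum_congr rfl fun n hn => lambda_eq N n (mem_of_mem_filter n hn)]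
  rw [← sum_biUnion]
  · congr 1
    ext z
    rw [mem_biUnion, mem_filter]
    constructor
    · rintro ⟨h2, h3, h4⟩
      exact ⟨z.1 ^ z.2, h4, mem_filter.2 ⟨h2, h3, rfl⟩⟩
    · rintro ⟨n, hn, hz⟩
      rw [mem_filter] at hz
      refine ⟨hz.1, hz.2.1, ?_⟩
      rw [hz.2.2]
      exact hn
  · intro n _ m _ hnm
    rw [Function.onFun, disjoint_left]
    intro z hz hz'
    rw [mem_filter] at hz hz'
    exact hnm (hz.2.2.symm.trans hz'.2.2)

/-- for the identity `G` is the variance of the primes -/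
theorem G_id (X : ℝ) (Q : ℕ) : G (fun p => p) X Q = ∑ A ∈ (range Q).filter (fun A => Nat.Coprime A Q),
    ((∑ n ∈ (Icc 1 ⌊X⌋₊).filter (fun n => n % Q = A), ArithmeticFunction.vonMangoldt n) -
      X / (Nat.totient Q : ℝ)) ^ 2 := by
  unfold G
  exact sum_congr rfl fun A _ => by rw [psi_id]

end Pool.Agent.H24.HV
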